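import Pool.Agent.L5helper73.SM.Clarke
import Pool.Agent.R765.ClosedCO
import Pool.Agent.R765.BallCone

/-!
# Homeomorphisms between smooth structures on `S¹ × S³` and `S¹ ×~ S³` generated by cone monotone,
# Lipschitz regular, and smooth ones of corank at most one

We consider the smooth 4-manifolds which are homeomorphic to `S¹ × S³` or to the twisted product
`S¹ ×~ S³`, and the least class of homeomorphisms between them which contains

* the smooth ones (with an inverse which need not be differentiable) whose derivative has rank at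
  least three everywhere, and
* those which at every point are a local diffeomorphism, or cone monotone, or Lipschitz and regular
  in the sense of Clarke (no convex combination of limits of derivatives is singular),

and which is closed under inverses, compositions and limits (a homeomorphism `g` belongs to the class
if every neighbourhood of its graph contains the graph of a member of the class). The members of the
class are exactly the limits of diffeomorphisms. So an exotic smooth structure on `S¹ × S³` or
`S¹ ×~ S³` is not related to the standard one by a member of the class, and a positive answer to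
the question means that any two smooth structures are related by one.

For instance, if `M` and `N` are not diffeomorphic then every locally Lipschitz homeomorphism
`M → N` has a point at which some convex combination of limits of its derivatives at nearby points
is not invertible. The distortion of the homeomorphism may be large. In the starting files
(`SmoothCorankOne`) there are only the smooth ones of corank at most one; the theorem about
cone monotone maps is in the library of the starting files.

Proof that Lipschitz regular maps are cone monotone: for a direction `v` the vectors `T v`, `T` in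
the generalized differential, form a compact convex set without zero, so that a linear functional
`ℓ` is positive on it; by Rademacher's theorem and a mean value theorem for the integrals over small
balls, `ℓ` increases along the segments in directions near `v` by an amount proportional to the
length.
-/

set_option autoImplicit false

open Set Filter Topology Metric Function
open scoped Manifold ContDiff NNReal

noncomputable section

namespace Pool.Agent.Results.MP_6db3ee_gt.GeneratedClass

/-- `ℝ⁴` -/
abbrev R4 : Type := EuclideanSpace ℝ (Fin 4)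

/-- the product `S¹ × S³` -/
abbrev Prod13 : Type := Circle × Metric.sphere (0 : R4) 1

/-- the twisted product: the unit sphere bundle of the sum of the Moebius line bundle over the
circle (the line over `p` consists of the `z` with `z ^ 2 = |z| ^ 2 p`) and a trivial bundle of
rank three -/
abbrev Twisted13 : Type := {p : ℂ × ℂ × EuclideanSpace ℝ (Fin 3) //
  ‖p.1‖ = 1 ∧ p.2.1 ^ 2 = ((‖p.2.1‖ ^ 2 : ℝ) : ℂ) * p.1 ∧ ‖p.2.1‖ ^ 2 + ‖p.2.2‖ ^ 2 = 1}

/-- smooth 4-manifolds homeomorphic to `S¹ × S³` or to the twisted product -/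
structure SmoothStructure where
  /-- the set of points -/
  pts : Type
  [top : TopologicalSpace pts]
  [chart : ChartedSpace R4 pts]
  smooth : IsManifold (𝓡 4) ∞ pts
  homeo : Nonempty (pts ≃ₜ Prod13) ∨ Nonempty (pts ≃ₜ Twisted13)

instance : CoeSort SmoothStructure Type := ⟨SmoothStructure.pts⟩

instance (M : SmoothStructure) : TopologicalSpace M := M.top

instance (M : SmoothStructure) : ChartedSpace R4 M := M.chart

section defs

variable {M N : Type} [TopologicalSpace M] [TopologicalSpace N] [ChartedSpace R4 M]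
  [ChartedSpace R4 N]

/-- `f` is a map of class `C^∞` -/
def Smooth (f : M → N) : Prop := ContMDiff (𝓡 4) (𝓡 4) ∞ f

/-- the derivative of `f` at `x`, as a linear map from `ℝ⁴` to `ℝ⁴` (in the preferred charts) -/
def der (f : M → N) (x : M) : R4 →L[ℝ] R4 := mfderiv (𝓡 4) (𝓡 4) f x

/-- the rank of a linear map -/
def rank (L : R4 →L[ℝ] R4) : ℕ := Module.finrank ℝ (LinearMap.range L.toLinearMap)

/-- `f` is a local diffeomorphism (of class `C^∞`, with smooth inverse) at `x` -/
def LocDiff (f : M → N) (x : M) : Prop := IsLocalDiffeomorphAt (𝓡 4) (𝓡 4) ∞ f x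

/-- `A` is a smooth parametrization of a neighbourhood of `x = A 0` in `M` -/
def IsParam (A : R4 → M) (x : M) : Prop := A 0 = x ∧ LocDiff A 0

/-- For every direction `v` the increments of `h` near `0` in the directions near `v` lie in a
proper cone: there are `r > 0` and a linear functional `ℓ` with `r ‖h q - h p‖ < ℓ (h q - h p)` for
all `p`, `q` in the ball of radius `r` about `0` such that `‖q - p - t v‖ ≤ r t` for some
`t > 0`. -/
def ConeIncrements (h : R4 → R4) : Prop :=
  ∀ v : R4, v ≠ 0 → ∃ (r : ℝ) (ℓ : R4 →L[ℝ] ℝ), 0 < r ∧ ∀ p q : R4, ‖p‖ ≤ r → ‖q‖ ≤ r →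
    ∀ t : ℝ, 0 < t → ‖q - p - t • v‖ ≤ r * t → r * ‖h q - h p‖ < ℓ (h q - h p)

/-- the norm of `S - T` is at most `ε` -/
def Close (S T : R4 →L[ℝ] R4) (ε : ℝ) : Prop := ∀ v, ‖S v - T v‖ ≤ ε * ‖v‖

/-- `T` is a limit of derivatives of `h` at points which tend to `0` -/
def IsLimitDerivative (h : R4 → R4) (T : R4 →L[ℝ] R4) : Prop :=
  ∀ ε > 0, ∃ (z : R4) (S : R4 →L[ℝ] R4), ‖z‖ < ε ∧ HasFDerivAt h S z ∧ Close S T ε

/-- the value at `v` of the linear combination of the `T i` with the coefficients `w i` -/
def combination (k : ℕ) (T : Fin k → (R4 →L[ℝ] R4)) (w : Fin k → ℝ) (v : R4) : R4 :=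
  ∑ i, w i • T i v

/-- `h` is Lipschitz near `0` -/
def LipschitzNear (h : R4 → R4) : Prop :=
  ∃ (r L : ℝ), 0 < r ∧ ∀ p q : R4, ‖p‖ < r → ‖q‖ < r → ‖h q - h p‖ ≤ L * ‖q - p‖

/-- `h` is Lipschitz near `0`, and all convex combinations of limits of derivatives of `h` at points
which tend to `0` are invertible. -/
def LipschitzRegular (h : R4 → R4) : Prop :=
  LipschitzNear h ∧ ∀ (k : ℕ) (T : Fin k → (R4 →L[ℝ] R4)) (w : Fin k → ℝ),
    (∀ i, IsLimitDerivative h (T i)) → (∀ i, 0 ≤ w i) → ∑ i, w i = 1 →
      ∀ v ≠ 0, combination k T w v ≠ 0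

/-- `f` is cone monotone at `x` in some smooth coordinates around `x` and around `f x` -/
def ConeMonotone (f : M → N) (x : M) : Prop :=
  ∃ (A : R4 → M) (B : N → R4), IsParam A x ∧ LocDiff B (f x) ∧ ConeIncrements fun p => B (f (A p))

/-- `f` is Lipschitz near `x` and regular at `x` in the sense of Clarke, in some smooth coordinates
around `x` and around `f x` -/
def Regular (f : M → N) (x : M) : Prop :=
  ∃ (A : R4 → M) (B : N → R4), IsParam A x ∧ LocDiff B (f x) ∧
    LipschitzRegular fun p => B (f (A p))

/-- the graph of `f` is contained in `O` -/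
def GraphIn (f : M → N) (O : Set (M × N)) : Prop := ∀ x, (x, f x) ∈ O

end defs

/-- The least class of homeomorphisms between the smooth 4-manifolds homeomorphic to `S¹ × S³` or
the twisted product which contains the smooth ones with derivatives of rank at least three and those
which at every point are local diffeomorphisms, cone monotone or Lipschitz and regular, and which
is closed under inverses, compositions and limits. -/
inductive Tame : (M N : SmoothStructure) → (M ≃ₜ N) → Prop
  | corankOne {M N : SmoothStructure} (g : M ≃ₜ N) : Smooth g → (∀ x, 3 ≤ rank (der g x)) →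
      Tame M N g
  | pointwise {M N : SmoothStructure} (g : M ≃ₜ N) :
      (∀ x, LocDiff g x ∨ ConeMonotone g x ∨ Regular g x) → Tame M N g
  | inverse {M N : SmoothStructure} (g : M ≃ₜ N) : Tame M N g → Tame N M g.symm
  | composition {M N P : SmoothStructure} (g : M ≃ₜ N) (h : N ≃ₜ P) :
      Tame M N g → Tame N P h → Tame M P (g.trans h)
  | limit {M N : SmoothStructure} (g : M ≃ₜ N) (h : Set (M × N) → (M ≃ₜ N)) :
      (∀ O, IsOpen O → GraphIn g O → GraphIn (h O) O) →
      (∀ O, IsOpen O → GraphIn g O → Tame M N (h O)) → Tame M N g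

/-- `g` is a limit of diffeomorphisms: every open neighbourhood of its graph contains the graph of a
diffeomorphism. -/
def LimitOfDiffeomorphisms (M N : SmoothStructure) (g : M ≃ₜ N) : Prop :=
  ∀ O : Set (M × N), IsOpen O → GraphIn g O →
    ∃ Φ : Diffeomorph (𝓡 4) (𝓡 4) M N ∞, GraphIn Φ O

/-- `Twisted13` is compact -/
theorem twisted_compact : CompactSpace Twisted13 := by
  refine isCompact_iff_compactSpace.1 ?_
  have hcl : IsClosed {p : ℂ × ℂ × EuclideanSpace ℝ (Fin 3) |
      ‖p.1‖ = 1 ∧ p.2.1 ^ 2 = ((‖p.2.1‖ ^ 2 : ℝ) : ℂ) * p.1 ∧ ‖p.2.1‖ ^ 2 + ‖p.2.2‖ ^ 2 = 1} := by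
    refine IsClosed.inter ?_ (IsClosed.inter ?_ ?_)
    · exact isClosed_eq (by fun_prop) (by fun_prop)
    · exact isClosed_eq (by fun_prop) (by fun_prop)
    · exact isClosed_eq (by fun_prop) (by fun_prop)
  refine (((isCompact_closedBall (0 : ℂ) 1).prod ((isCompact_closedBall (0 : ℂ) 1).prod
    (isCompact_closedBall (0 : EuclideanSpace ℝ (Fin 3)) 1)))).of_isClosed_subset hcl ?_
  rintro ⟨a, b, c⟩ ⟨h1, -, h3⟩
  simp only at h1 h3
  simp only [Set.mem_prod, mem_closedBall_zero_iff]
  refine ⟨h1.le, ?_, ?_⟩
  · nlinarith [norm_nonneg b, norm_nonneg c, sq_nonneg ‖c‖]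
  · nlinarith [norm_nonneg b, norm_nonneg c, sq_nonneg ‖b‖]

theorem top_aux (M : SmoothStructure) : T2Space M ∧ CompactSpace M := by
  rcases M.homeo with ⟨⟨e⟩⟩ | ⟨⟨e⟩⟩
  · exact ⟨e.symm.t2Space, e.symm.compactSpace⟩
  · have := twisted_compact
    exact ⟨e.symm.t2Space, e.symm.compactSpace⟩

theorem limit_symm {M N : SmoothStructure} (g : M ≃ₜ N) (hg : LimitOfDiffeomorphisms M N g) :
    LimitOfDiffeomorphisms N M g.symm := by
  intro O hO hgO
  obtain ⟨Φ, hΦ⟩ := hg (Prod.swap ⁻¹' O) (hO.preimage continuous_swap) (fun x => by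
    have := hgO (g x)
    rw [g.symm_apply_apply] at this
    exact this)
  refine ⟨Φ.symm, fun y => ?_⟩
  have := hΦ (Φ.symm y)
  rw [Φ.apply_symm_apply] at this
  exact this

theorem limit_trans {M N P : SmoothStructure} (g : M ≃ₜ N) (h : N ≃ₜ P)
    (hg : LimitOfDiffeomorphisms M N g) (hh : LimitOfDiffeomorphisms N P h) :
    LimitOfDiffeomorphisms M P (g.trans h) := by
  intro O hO hgO
  have c1 : Continuous fun z : N × P => ((g.symm z.1, z.2) : M × P) :=
    (g.symm.continuous.comp continuous_fst).prodMk continuous_snd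
  obtain ⟨Ψ, hΨ⟩ := hh ((fun z : N × P => ((g.symm z.1, z.2) : M × P)) ⁻¹' O) (hO.preimage c1)
    (fun y => by
      have := hgO (g.symm y)
      rw [Homeomorph.trans_apply, g.apply_symm_apply] at this
      exact this)
  have c2 : Continuous fun z : M × N => ((z.1, Ψ z.2) : M × P) :=
    continuous_fst.prodMk (Ψ.continuous.comp continuous_snd)
  obtain ⟨Φ, hΦ⟩ := hg ((fun z : M × N => ((z.1, Ψ z.2) : M × P)) ⁻¹' O) (hO.preimage c2)
    (fun x => by
      have := hΨ (g x)
      simp only [mem_preimage, g.symm_apply_apply] at this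
      exact this)
  exact ⟨Φ.trans Ψ, hΦ⟩

theorem corank_aux (X Y : Type) [TopologicalSpace X] [TopologicalSpace Y]
    [ChartedSpace R4 X] [ChartedSpace R4 Y] (hX : T2Space X) (hXc : CompactSpace X)
    (hX1 : IsManifold (𝓡 4) ∞ X) (hY1 : IsManifold (𝓡 4) ∞ Y)
    (g : X ≃ₜ Y) (hg : Smooth g) (hr : ∀ x : X, 3 ≤ rank (der g x))
    (O : Set (X × Y)) (hO : IsOpen O) (hgO : GraphIn g O) :
    ∃ Φ : Diffeomorph (𝓡 4) (𝓡 4) X Y ∞, GraphIn Φ O :=
  Pool.Agent.R765.corankOneClosed 3 X Y g hg hr O hO hgO

/-- regular Lipschitz maps are cone monotone -/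
theorem cone_of_regular {h : R4 → R4} (hh : LipschitzRegular h) : ConeIncrements h := by
  obtain ⟨⟨r, L, hr, hL⟩, hreg⟩ := hh
  have hLip : LipschitzOnWith L.toNNReal h (ball 0 r) := by
    refine LipschitzOnWith.of_dist_le_mul fun q hq p hp => ?_
    rw [mem_ball_zero_iff] at hp hq
    rw [dist_eq_norm, dist_eq_norm]
    refine (hL p q hp hq).trans ?_
    gcongr
    exact Real.le_coe_toNNReal L
  refine Pool.Agent.L5helper73.SM.cone_of_regular hr hLip fun T hT => ?_
  rw [mem_convexHull_iff_exists_fintype] at hT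
  obtain ⟨ι, _, w, z, hw, hw1, hz, rfl⟩ := hT
  let e := Fintype.equivFin ι
  have h1 : ∀ v ≠ 0, combination (Fintype.card ι) (fun i => z (e.symm i)) (fun i => w (e.symm i)) v
      ≠ 0 := by
    refine hreg _ _ _ (fun i => ?_) (fun i => hw _) ?_
    · intro ε hε
      obtain ⟨x, hx1, hx2, hx3⟩ := hz (e.symm i) ε hε
      refine ⟨x, fderiv ℝ h x, hx1, hx2.hasFDerivAt, fun v => ?_⟩
      have h2 := (fderiv ℝ h x - z (e.symm i)).le_opNorm v
      refine h2.trans ?_
      gcongr
    · rw [← hw1]
      exact Equiv.sum_comp e.symm w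
  refine (injective_iff_map_eq_zero _).2 fun v hv => ?_
  by_contra hv0
  refine h1 v hv0 ?_
  rw [← hv]
  show ∑ i, w (e.symm i) • z (e.symm i) v = (∑ i, w i • z i) v
  rw [FunLike.coe_sum, Finset.sum_apply, Equiv.sum_comp e.symm fun i => w i • z i v]
  rfl

theorem cone_aux (X Y : Type) [TopologicalSpace X] [TopologicalSpace Y]
    [ChartedSpace R4 X] [ChartedSpace R4 Y] (hX : T2Space X) (hXc : CompactSpace X)
    (hX1 : IsManifold (𝓡 4) ∞ X) (hY1 : IsManifold (𝓡 4) ∞ Y)
    (g : X ≃ₜ Y) (hc : ∀ x : X, LocDiff g x ∨ ConeMonotone g x ∨ Regular g x)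
    (O : Set (X × Y)) (hO : IsOpen O) (hgO : GraphIn g O) :
    ∃ Φ : Diffeomorph (𝓡 4) (𝓡 4) X Y ∞, GraphIn Φ O := by
  refine Pool.Agent.R765.coneMonotoneClosed 4 X Y g (fun x => ?_) O hO hgO
  rcases hc x with h | ⟨A, B, ⟨h1, h2⟩, h3, h4⟩ | ⟨A, B, ⟨h1, h2⟩, h3, h4⟩
  · exact Or.inl h
  · exact Or.inr ⟨B, h3, A, h1, h2, h4⟩
  · exact Or.inr ⟨B, h3, A, h1, h2, cone_of_regular h4⟩

theorem limit_of_tame {M N : SmoothStructure} (g : M ≃ₜ N) (hg : Tame M N g) :
    LimitOfDiffeomorphisms M N g := by
  induction hg with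
  | @corankOne M N g hs hr =>
    exact corank_aux M N (top_aux M).1 (top_aux M).2 M.smooth N.smooth g hs hr
  | @pointwise M N g hc =>
    exact cone_aux M N (top_aux M).1 (top_aux M).2 M.smooth N.smooth g hc
  | inverse g _ ih => exact limit_symm g ih
  | composition g h _ _ ih1 ih2 => exact limit_trans g h ih1 ih2
  | limit g h h1 _ ih =>
    intro O hO hgO
    exact ih O hO hgO O hO (h1 O hO hgO)

theorem tame_of_diffeo {M N : SmoothStructure} (Φ : Diffeomorph (𝓡 4) (𝓡 4) M N ∞) :
    Tame M N Φ.toHomeomorph :=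
  Tame.pointwise _ fun x => Or.inl (Φ.isLocalDiffeomorph x)

theorem tame_of_limit {M N : SmoothStructure} (g : M ≃ₜ N) (hg : LimitOfDiffeomorphisms M N g) :
    Tame M N g := by
  classical
  refine Tame.limit g (fun O => if h : IsOpen O ∧ GraphIn g O then
    (Classical.choose (hg O h.1 h.2)).toHomeomorph else g) ?_ ?_
  · intro O hO hgO
    rw [dif_pos ⟨hO, hgO⟩]
    exact Classical.choose_spec (hg O hO hgO)
  · intro O hO hgO
    rw [dif_pos ⟨hO, hgO⟩]
    exact tame_of_diffeo _

/-- **Theorem.** The homeomorphisms of the class are exactly the limits of diffeomorphisms. Two smooth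
4-manifolds homeomorphic to `S¹ × S³` or the twisted product are diffeomorphic if and only if there
is a homeomorphism of the class between them. -/
theorem result (M N : SmoothStructure) :
    (∀ g : M ≃ₜ N, Tame M N g ↔ LimitOfDiffeomorphisms M N g) ∧
      ((∃ g : M ≃ₜ N, Tame M N g) ↔ Nonempty (Diffeomorph (𝓡 4) (𝓡 4) M N ∞)) := by
  refine ⟨fun g => ⟨limit_of_tame g, tame_of_limit g⟩, ?_, ?_⟩
  · rintro ⟨g, hg⟩
    obtain ⟨Φ, -⟩ := limit_of_tame g hg univ isOpen_univ (fun _ => mem_univ _)
    exact ⟨Φ⟩
  · rintro ⟨Φ⟩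
    exact ⟨_, tame_of_diffeo Φ⟩

end Pool.Agent.Results.MP_6db3ee_gt.GeneratedClass
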